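import Pool.Agent.K6.H16.LC.F

/-!
The flux inequality for stationary waves: `E[|∂_v G(0)|; G(0) ∈ A] ≤ (|v| / π) |A|`, and the bound for
the law of `G(0)` away from zero.
-/

set_option autoImplicit false
open MeasureTheory Filter Topology Metric
open scoped ENNReal ContDiff

namespace Pool.Agent.K6.H29.OP

open Pool.Agent.Y139.SW Pool.Agent.K6.H16.LC

variable {d : ℕ} {S : Type*} [MeasurableSpace S] {P : Measure S} {τ : E d → S → S}

/-- the probability that `c` lies strictly between `G 0` and `G v` -/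
lemma between [IsProbabilityMeasure P] (hτ : ∀ x, MeasurePreserving (τ x) P P)
    {G : S → E d → ℝ} (W : Wave P τ G) (v : E d) (c : ℝ) :
    P {s | min (G s 0) (G s v) < c ∧ c < max (G s 0) (G s v)} ≤ ENNReal.ofReal (‖v‖ / Real.pi) := by
  obtain ⟨h1, h2⟩ := main hτ W 0 v c
  have mf : ∀ y, Measurable fun s => (fun (s : S) (t : ℝ) => G s (0 + t • v)) s y :=
    fun y => W.sf.meas _
  have cf : ∀ s, Continuous ((fun (s : S) (t : ℝ) => G s (0 + t • v)) s) := fun s =>
    (W.sf.smooth s).continuous.comp (by fun_prop)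
  have mE : MeasurableSet {s | min (G s 0) (G s v) < c ∧ c < max (G s 0) (G s v)} :=
    (measurableSet_lt ((W.sf.meas 0).min (W.sf.meas v)) measurable_const).inter
      (measurableSet_lt measurable_const ((W.sf.meas 0).max (W.sf.meas v)))
  have key : ∀ s ∈ {s | min (G s 0) (G s v) < c ∧ c < max (G s 0) (G s v)},
      (∃ t : ℝ, G s (0 + t • v) ≠ c) ∧ 1 ≤ num (fun s (t : ℝ) => G s (0 + t • v)) c s := by
    rintro s ⟨h3, h4⟩
    have e0 : G s (0 + (0 : ℝ) • v) = G s 0 := by simp
    have e1 : G s (0 + (1 : ℝ) • v) = G s v := by simp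
    have n0 : G s 0 ≠ c := by
      intro h
      rw [h] at h3 h4
      rcases le_total c (G s v) with h5 | h5
      · rw [min_eq_left h5] at h3; exact lt_irrefl _ h3
      · rw [max_eq_left h5] at h4; exact lt_irrefl _ h4
    refine ⟨⟨0, by rw [e0]; exact n0⟩, ?_⟩
    obtain ⟨t, ht, hc⟩ : ∃ t ∈ Set.Icc (0 : ℝ) 1, G s (0 + t • v) = c := by
      have iv := intermediate_value_uIcc (a := (0 : ℝ)) (b := 1)
        (f := fun t : ℝ => G s (0 + t • v)) (cf s).continuousOn
      have : c ∈ Set.uIcc (G s (0 + (0 : ℝ) • v)) (G s (0 + (1 : ℝ) • v)) := by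
        rw [e0, e1, Set.uIcc, Set.mem_Icc]
        exact ⟨h3.le, h4.le⟩
      obtain ⟨t, ht, hc⟩ := iv this
      rw [Set.uIcc_of_le zero_le_one] at ht
      exact ⟨t, ht, hc⟩
    have t1 : t < 1 := by
      rcases lt_or_eq_of_le ht.2 with h | h
      · exact h
      · exfalso
        rw [h, e1] at hc
        rw [hc] at h3 h4
        rcases le_total (G s 0) c with h5 | h5
        · rw [max_eq_right h5] at h4; exact lt_irrefl _ h4
        · rw [min_eq_right h5] at h3; exact lt_irrefl _ h3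
    have hne : ({t : ℝ | t ∈ Set.Ico 0 1 ∧ G s (0 + t • v) = c}).Nonempty := ⟨t, ⟨ht.1, t1⟩, hc⟩
    have := Set.one_le_encard_iff_nonempty.2 hne
    unfold num
    exact_mod_cast this
  calc P {s | min (G s 0) (G s v) < c ∧ c < max (G s 0) (G s v)}
      = ∫⁻ s in {s | min (G s 0) (G s v) < c ∧ c < max (G s 0) (G s v)}, 1 ∂P := by simp
    _ ≤ ∫⁻ s in {s | min (G s 0) (G s v) < c ∧ c < max (G s 0) (G s v)},
          num (fun s (t : ℝ) => G s (0 + t • v)) c s ∂P :=
        setLIntegral_mono h1 fun s hs => (key s hs).2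
    _ ≤ ∫⁻ s in {s | ∃ t : ℝ, G s (0 + t • v) ≠ c}, num (fun s (t : ℝ) => G s (0 + t • v)) c s ∂P :=
        lintegral_mono_set fun s hs => (key s hs).1
    _ ≤ _ := h2
    _ ≤ ENNReal.ofReal (‖v‖ / Real.pi) * 1 := mul_le_mul' le_rfl prob_le_one
    _ = _ := mul_one _

/-- the mean of the part of a set between `G 0` and `G v` -/
lemma mean_between [IsProbabilityMeasure P] (hτ : ∀ x, MeasurePreserving (τ x) P P)
    {G : S → E d → ℝ} (W : Wave P τ G) (v : E d) (U : Set ℝ) :
    ∫⁻ s, volume (U ∩ Set.Ioo (min (G s 0) (G s v)) (max (G s 0) (G s v))) ∂P ≤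
      ENNReal.ofReal (‖v‖ / Real.pi) * volume U := by
  obtain ⟨B, hB⟩ : ∃ B : Set (S × ℝ), B = {p | min (G p.1 0) (G p.1 v) < p.2 ∧
    p.2 < max (G p.1 0) (G p.1 v)} := ⟨_, rfl⟩
  have m0 : Measurable fun p : S × ℝ => min (G p.1 0) (G p.1 v) :=
    ((W.sf.meas 0).comp measurable_fst).min ((W.sf.meas v).comp measurable_fst)
  have m1 : Measurable fun p : S × ℝ => max (G p.1 0) (G p.1 v) :=
    ((W.sf.meas 0).comp measurable_fst).max ((W.sf.meas v).comp measurable_fst)
  have mB : MeasurableSet B := by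
    rw [hB]
    exact (measurableSet_lt m0 measurable_snd).inter (measurableSet_lt measurable_snd m1)
  have e1 : ∀ s, volume (U ∩ Set.Ioo (min (G s 0) (G s v)) (max (G s 0) (G s v))) =
      ∫⁻ c in U, B.indicator 1 (s, c) := by
    intro s
    have : (fun c => B.indicator (1 : S × ℝ → ℝ≥0∞) (s, c)) =
        (Set.Ioo (min (G s 0) (G s v)) (max (G s 0) (G s v))).indicator 1 := by
      funext c
      by_cases hc : c ∈ Set.Ioo (min (G s 0) (G s v)) (max (G s 0) (G s v))
      · rw [Set.indicator_of_mem hc, Set.indicator_of_mem (by rw [hB]; exact hc)]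
        rfl
      · rw [Set.indicator_of_notMem hc, Set.indicator_of_notMem (by rw [hB]; exact hc)]
    rw [this, lintegral_indicator_one measurableSet_Ioo, Measure.restrict_apply measurableSet_Ioo,
      Set.inter_comm]
  simp only [e1]
  have e2 : ∫⁻ s, (∫⁻ c in U, B.indicator (1 : S × ℝ → ℝ≥0∞) (s, c)) ∂P =
      ∫⁻ c in U, (∫⁻ s, B.indicator (1 : S × ℝ → ℝ≥0∞) (s, c) ∂P) := by
    refine lintegral_lintegral_swap ?_
    exact ((measurable_one.indicator mB)).aemeasurable
  rw [e2]
  have e3 : ∀ c, ∫⁻ s, B.indicator (1 : S × ℝ → ℝ≥0∞) (s, c) ∂P ≤ ENNReal.ofReal (‖v‖ / Real.pi) := by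
    intro c
    refine le_trans (le_of_eq ?_) (between hτ W v c)
    have : (fun s => B.indicator (1 : S × ℝ → ℝ≥0∞) (s, c)) =
        {s | min (G s 0) (G s v) < c ∧ c < max (G s 0) (G s v)}.indicator 1 := by
      funext s
      by_cases hs : s ∈ {s | min (G s 0) (G s v) < c ∧ c < max (G s 0) (G s v)}
      · rw [Set.indicator_of_mem hs, Set.indicator_of_mem (by rw [hB]; exact hs)]
        rfl
      · rw [Set.indicator_of_notMem hs, Set.indicator_of_notMem (by rw [hB]; exact hs)]
    rw [this, lintegral_indicator_one]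
    exact (measurableSet_lt ((W.sf.meas 0).min (W.sf.meas v)) measurable_const).inter
      (measurableSet_lt measurable_const ((W.sf.meas 0).max (W.sf.meas v)))
  calc ∫⁻ c in U, (∫⁻ s, B.indicator (1 : S × ℝ → ℝ≥0∞) (s, c) ∂P)
      ≤ ∫⁻ _ in U, ENNReal.ofReal (‖v‖ / Real.pi) := lintegral_mono fun c => e3 c
    _ = _ := by rw [setLIntegral_const]

/-- the flux inequality for open sets -/
lemma flux_open [IsProbabilityMeasure P] (hτ : ∀ x, MeasurePreserving (τ x) P P)
    {G : S → E d → ℝ} (W : Wave P τ G) (v : E d) {U : Set ℝ} (oU : IsOpen U) :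
    ∫⁻ s in {s | G s 0 ∈ U}, ENNReal.ofReal |fderiv ℝ (G s) 0 v| ∂P ≤
      ENNReal.ofReal (‖v‖ / Real.pi) * volume U := by
  obtain ⟨φ, hφ⟩ : ∃ φ : ℕ → S → ℝ≥0∞, φ = fun (n : ℕ) (s : S) => (n : ℝ≥0∞) *
    volume (U ∩ Set.Ioo (min (G s 0) (G s ((n : ℝ)⁻¹ • v))) (max (G s 0) (G s ((n : ℝ)⁻¹ • v)))) :=
    ⟨_, rfl⟩
  have mE : MeasurableSet {s | G s 0 ∈ U} := (W.sf.meas 0) oU.measurableSet
  -- pointwise limit
  have lim : ∀ s ∈ {s | G s 0 ∈ U}, ENNReal.ofReal |fderiv ℝ (G s) 0 v| ≤
      liminf (fun n => φ n s) atTop := by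
    intro s hs
    have d1 : Tendsto (fun n : ℕ => (n : ℝ) • (G s (0 + (n : ℝ)⁻¹ • v) - G s 0)) atTop
        (𝓝 (fderiv ℝ (G s) 0 v)) :=
      ((sdiff (W.sf.smooth s) 0).hasFDerivAt.lim_real v).comp tendsto_natCast_atTop_atTop
    have d2 : Tendsto (fun n : ℕ => ENNReal.ofReal |(n : ℝ) • (G s (0 + (n : ℝ)⁻¹ • v) - G s 0)|) atTop
        (𝓝 (ENNReal.ofReal |fderiv ℝ (G s) 0 v|)) :=
      (ENNReal.continuous_ofReal.tendsto _).comp ((continuous_abs.tendsto _).comp d1)
    have d3 : Tendsto (fun n : ℕ => G s ((n : ℝ)⁻¹ • v)) atTop (𝓝 (G s 0)) := by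
      have h1 : Tendsto (fun n : ℕ => (n : ℝ)⁻¹ • v) atTop (𝓝 ((0 : ℝ) • v)) :=
        (tendsto_inv_atTop_nhds_zero_nat).smul_const v
      rw [zero_smul] at h1
      exact ((W.sf.smooth s).continuous.tendsto 0).comp h1
    obtain ⟨ε, ε0, hε⟩ := Metric.isOpen_iff.1 oU (G s 0) hs
    have ev : ∀ᶠ n : ℕ in atTop, |G s ((n : ℝ)⁻¹ • v) - G s 0| < ε := by
      have := (Metric.tendsto_nhds.1 d3) ε ε0
      filter_upwards [this] with n hn
      rwa [Real.dist_eq] at hn
    rw [← d2.liminf_eq]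
    refine liminf_le_liminf ?_
    filter_upwards [ev] with n hn
    rw [hφ]
    simp only
    have sub : Set.Ioo (min (G s 0) (G s ((n : ℝ)⁻¹ • v))) (max (G s 0) (G s ((n : ℝ)⁻¹ • v))) ⊆ U := by
      rintro c ⟨h1, h2⟩
      refine hε ?_
      rw [Metric.mem_ball, Real.dist_eq]
      rw [abs_lt] at hn ⊢
      rcases le_total (G s 0) (G s ((n : ℝ)⁻¹ • v)) with h | h
      · rw [min_eq_left h] at h1
        rw [max_eq_right h] at h2
        constructor <;> linarith
      · rw [min_eq_right h] at h1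
        rw [max_eq_left h] at h2
        constructor <;> linarith
    rw [Set.inter_eq_right.2 sub, Real.volume_Ioo, max_sub_min_eq_abs, zero_add, smul_eq_mul,
      abs_mul, Nat.abs_cast, ENNReal.ofReal_mul (Nat.cast_nonneg n), ENNReal.ofReal_natCast]
  have mφ : ∀ n, Measurable (φ n) := by
    intro n
    rw [hφ]
    refine measurable_const.mul ?_
    obtain ⟨B, hB⟩ : ∃ B : Set (S × ℝ), B = {p | min (G p.1 0) (G p.1 ((n : ℝ)⁻¹ • v)) < p.2 ∧
      p.2 < max (G p.1 0) (G p.1 ((n : ℝ)⁻¹ • v))} := ⟨_, rfl⟩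
    have m0 : Measurable fun p : S × ℝ => min (G p.1 0) (G p.1 ((n : ℝ)⁻¹ • v)) :=
      ((W.sf.meas 0).comp measurable_fst).min ((W.sf.meas _).comp measurable_fst)
    have m1 : Measurable fun p : S × ℝ => max (G p.1 0) (G p.1 ((n : ℝ)⁻¹ • v)) :=
      ((W.sf.meas 0).comp measurable_fst).max ((W.sf.meas _).comp measurable_fst)
    have mB : MeasurableSet B := by
      rw [hB]
      exact (measurableSet_lt m0 measurable_snd).inter (measurableSet_lt measurable_snd m1)
    have := measurable_measure_prodMk_left (ν := volume)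
      (mB.inter (measurable_snd oU.measurableSet))
    convert this using 2 with s
    congr 1
    ext c
    simp only [Set.mem_inter_iff, Set.mem_Ioo, Set.mem_preimage, hB, Set.mem_ofPred_eq]
    tauto
  calc ∫⁻ s in {s | G s 0 ∈ U}, ENNReal.ofReal |fderiv ℝ (G s) 0 v| ∂P
      ≤ ∫⁻ s in {s | G s 0 ∈ U}, liminf (fun n => φ n s) atTop ∂P :=
        setLIntegral_mono' mE lim
    _ ≤ ∫⁻ s, liminf (fun n => φ n s) atTop ∂P := setLIntegral_le_lintegral _ _
    _ ≤ liminf (fun n => ∫⁻ s, φ n s ∂P) atTop := lintegral_liminf_le mφ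
    _ ≤ liminf (fun _ : ℕ => ENNReal.ofReal (‖v‖ / Real.pi) * volume U) atTop := by
        refine liminf_le_liminf (Eventually.of_forall fun n => ?_)
        rw [hφ]
        simp only
        rw [lintegral_const_mul']
        swap
        · exact ENNReal.natCast_ne_top n
        refine le_trans (mul_le_mul' le_rfl (mean_between hτ W _ U)) ?_
        rcases Nat.eq_zero_or_pos n with rfl | hn
        · simp
        have n0 : (0 : ℝ) < n := by exact_mod_cast hn
        rw [← mul_assoc]
        refine mul_le_mul' (le_of_eq ?_) le_rfl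
        rw [norm_smul, norm_inv, Real.norm_natCast, ← ENNReal.ofReal_natCast n,
          ← ENNReal.ofReal_mul n0.le]
        congr 1
        field_simp
    _ = _ := by simp

/-- the flux inequality -/
theorem flux [IsProbabilityMeasure P] (hτ : ∀ x, MeasurePreserving (τ x) P P)
    {G : S → E d → ℝ} (W : Wave P τ G) (v : E d) (A : Set ℝ) :
    ∫⁻ s in {s | G s 0 ∈ A}, ENNReal.ofReal |fderiv ℝ (G s) 0 v| ∂P ≤
      ENNReal.ofReal (‖v‖ / Real.pi) * volume A := by
  obtain ⟨K, hK⟩ : ∃ K : ℝ, K = ‖v‖ / Real.pi := ⟨_, rfl⟩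
  have K0 : 0 ≤ K := by rw [hK]; positivity
  rw [← hK]
  refine ENNReal.le_of_forall_pos_le_add fun ε ε0 _ => ?_
  have e0 : ENNReal.ofReal (ε / (K + 1)) ≠ 0 := by
    have : (0 : ℝ) < ε / (K + 1) := div_pos (by exact_mod_cast ε0) (by linarith)
    simp only [ne_eq, ENNReal.ofReal_eq_zero, not_le]
    exact this
  obtain ⟨U, hAU, oU, hU⟩ := Set.exists_isOpen_le_add A volume e0
  calc ∫⁻ s in {s | G s 0 ∈ A}, ENNReal.ofReal |fderiv ℝ (G s) 0 v| ∂P
      ≤ ∫⁻ s in {s | G s 0 ∈ U}, ENNReal.ofReal |fderiv ℝ (G s) 0 v| ∂P :=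
        lintegral_mono_set fun s hs => hAU hs
    _ ≤ ENNReal.ofReal K * volume U := by rw [hK]; exact flux_open hτ W v oU
    _ ≤ ENNReal.ofReal K * (volume A + ENNReal.ofReal (ε / (K + 1))) := mul_le_mul' le_rfl hU
    _ = ENNReal.ofReal K * volume A + ENNReal.ofReal (K * (ε / (K + 1))) := by
        rw [mul_add, ENNReal.ofReal_mul K0]
    _ ≤ _ := by
        refine add_le_add le_rfl ?_
        rw [← ENNReal.ofReal_coe_nnreal]
        refine ENNReal.ofReal_le_ofReal ?_
        rw [mul_div_assoc', div_le_iff₀ (by linarith)]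
        nlinarith [ε.coe_nonneg]

/-- the bound with a parameter -/
lemma param [IsProbabilityMeasure P] (hτ : ∀ x, MeasurePreserving (τ x) P P)
    {G : S → E d → ℝ} (W : Wave P τ G) {δ η : ℝ} (δ0 : 0 < δ) (η0 : 0 < η) {A : Set ℝ}
    (hA : ∀ t ∈ A, δ ≤ |t|) :
    P {s | G s 0 ∈ A} ≤ ENNReal.ofReal (d / (Real.pi * η)) * volume A +
      ENNReal.ofReal (d * (2 * η) / (Real.pi * δ)) := by
  have W' := fun i : Fin d => W.der hτ i
  -- the derivatives
  have ne : ∀ i : Fin d, ‖(EuclideanSpace.single i (1 : ℝ) : E d)‖ = 1 := fun i => by simp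
  have sub : {s | G s 0 ∈ A} ⊆ (⋃ i : Fin d, {s | G s 0 ∈ A ∧ η < |D i (G s) 0|}) ∪
      {s | δ ≤ ∑ i : Fin d, (if |D i (G s) 0| ≤ η then |D i (D i (G s)) 0| else 0)} := by
    intro s hs
    by_cases h : ∃ i : Fin d, η < |D i (G s) 0|
    · obtain ⟨i, hi⟩ := h
      exact Or.inl (Set.mem_iUnion.2 ⟨i, hs, hi⟩)
    · push Not at h
      refine Or.inr ?_
      show δ ≤ _
      have e := W.eq s 0
      have a1 := hA _ hs
      rw [← abs_neg, ← e] at a1
      refine a1.trans ?_
      unfold Lap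
      refine (Finset.abs_sum_le_sum_abs _ _).trans (le_of_eq ?_)
      refine Finset.sum_congr rfl fun i _ => ?_
      rw [if_pos (h i)]
  refine (measure_mono sub).trans ((measure_union_le _ _).trans (add_le_add ?_ ?_))
  · have h1 : ∀ i : Fin d, P {s | G s 0 ∈ A ∧ η < |D i (G s) 0|} ≤
        ENNReal.ofReal (1 / (Real.pi * η)) * volume A := by
      intro i
      have f := flux hτ W (EuclideanSpace.single i (1 : ℝ)) A
      rw [ne i] at f
      have mD : Measurable fun s => ENNReal.ofReal |fderiv ℝ (G s) 0 (EuclideanSpace.single i (1 : ℝ))| := by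
        have := (W' i).sf.meas 0
        exact (this.abs).ennreal_ofReal
      have c1 := mul_meas_ge_le_lintegral (μ := P.restrict {s | G s 0 ∈ A}) mD (ENNReal.ofReal η)
      have c2 : P {s | G s 0 ∈ A ∧ η < |D i (G s) 0|} ≤
          (P.restrict {s | G s 0 ∈ A}) {s | ENNReal.ofReal η ≤
            ENNReal.ofReal |fderiv ℝ (G s) 0 (EuclideanSpace.single i (1 : ℝ))|} := by
        rw [Measure.restrict_apply (measurableSet_le measurable_const mD)]
        refine measure_mono ?_
        rintro s ⟨h2, h3⟩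
        exact ⟨ENNReal.ofReal_le_ofReal h3.le, h2⟩
      have η1 : ENNReal.ofReal η ≠ 0 := by simpa using η0
      have c3 : ENNReal.ofReal η * P {s | G s 0 ∈ A ∧ η < |D i (G s) 0|} ≤
          ENNReal.ofReal (1 / Real.pi) * volume A :=
        (mul_le_mul' le_rfl c2).trans (c1.trans f)
      calc P {s | G s 0 ∈ A ∧ η < |D i (G s) 0|}
          = ENNReal.ofReal (1 / η) * (ENNReal.ofReal η * P {s | G s 0 ∈ A ∧ η < |D i (G s) 0|}) := by
            rw [← mul_assoc, ← ENNReal.ofReal_mul (by positivity), one_div, inv_mul_cancel₀ η0.ne',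
              ENNReal.ofReal_one, one_mul]
        _ ≤ ENNReal.ofReal (1 / η) * (ENNReal.ofReal (1 / Real.pi) * volume A) :=
            mul_le_mul' le_rfl c3
        _ = _ := by
            rw [← mul_assoc, ← ENNReal.ofReal_mul (by positivity)]
            congr 2
            field_simp
    calc P (⋃ i : Fin d, {s | G s 0 ∈ A ∧ η < |D i (G s) 0|})
        ≤ ∑ i : Fin d, P {s | G s 0 ∈ A ∧ η < |D i (G s) 0|} := measure_iUnion_fintype_le _ _
      _ ≤ ∑ _i : Fin d, ENNReal.ofReal (1 / (Real.pi * η)) * volume A :=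
          Finset.sum_le_sum fun i _ => h1 i
      _ = _ := by
          rw [Finset.sum_const, Finset.card_univ, Fintype.card_fin, nsmul_eq_mul, ← mul_assoc,
            ← ENNReal.ofReal_natCast, ← ENNReal.ofReal_mul (Nat.cast_nonneg d)]
          congr 2
          field_simp
  · -- second part
    have mi : ∀ i : Fin d, Measurable fun s =>
        (if |D i (G s) 0| ≤ η then |D i (D i (G s)) 0| else 0) := by
      intro i
      refine Measurable.ite (measurableSet_le ((W' i).sf.meas 0).abs measurable_const) ?_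
        measurable_const
      exact (((W' i).sf.der i).meas 0).abs
    have h1 : ∀ i : Fin d, ∫⁻ s, ENNReal.ofReal (if |D i (G s) 0| ≤ η then |D i (D i (G s)) 0| else 0)
        ∂P ≤ ENNReal.ofReal (2 * η / Real.pi) := by
      intro i
      have f := flux hτ (W' i) (EuclideanSpace.single i (1 : ℝ)) (Set.Icc (-η) η)
      rw [ne i, Real.volume_Icc] at f
      have mE : MeasurableSet {s | D i (G s) 0 ∈ Set.Icc (-η) η} :=
        ((W' i).sf.meas 0) measurableSet_Icc
      calc ∫⁻ s, ENNReal.ofReal (if |D i (G s) 0| ≤ η then |D i (D i (G s)) 0| else 0) ∂P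
          = ∫⁻ s, {s | D i (G s) 0 ∈ Set.Icc (-η) η}.indicator (fun s => ENNReal.ofReal
              |fderiv ℝ (D i (G s)) 0 (EuclideanSpace.single i (1 : ℝ))|) s ∂P := by
            congr 1
            funext s
            by_cases hs : |D i (G s) 0| ≤ η
            · have hs' : s ∈ {s | D i (G s) 0 ∈ Set.Icc (-η) η} := abs_le.1 hs
              rw [if_pos hs, Set.indicator_of_mem hs']
              rfl
            · have hs' : s ∉ {s | D i (G s) 0 ∈ Set.Icc (-η) η} := fun h => hs (abs_le.2 h)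
              rw [if_neg hs, Set.indicator_of_notMem hs', ENNReal.ofReal_zero]
        _ ≤ ENNReal.ofReal (1 / Real.pi) * ENNReal.ofReal (η - -η) := by
            rw [lintegral_indicator mE]; exact f
        _ = _ := by
            rw [← ENNReal.ofReal_mul (by positivity)]
            congr 1
            ring
    have mS : Measurable fun s => ENNReal.ofReal
        (∑ i : Fin d, (if |D i (G s) 0| ≤ η then |D i (D i (G s)) 0| else 0)) :=
      (Finset.measurable_fun_sum _ fun i _ => mi i).ennreal_ofReal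
    have c1 := mul_meas_ge_le_lintegral (μ := P) mS (ENNReal.ofReal δ)
    have c2 : {s | δ ≤ ∑ i : Fin d, (if |D i (G s) 0| ≤ η then |D i (D i (G s)) 0| else 0)} ⊆
        {s | ENNReal.ofReal δ ≤ ENNReal.ofReal
          (∑ i : Fin d, (if |D i (G s) 0| ≤ η then |D i (D i (G s)) 0| else 0))} :=
      fun s hs => ENNReal.ofReal_le_ofReal hs
    have c3 : ∫⁻ s, ENNReal.ofReal
        (∑ i : Fin d, (if |D i (G s) 0| ≤ η then |D i (D i (G s)) 0| else 0)) ∂P ≤
        ENNReal.ofReal (d * (2 * η / Real.pi)) := by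
      calc (∫⁻ s, ENNReal.ofReal
            (∑ i : Fin d, (if |D i (G s) 0| ≤ η then |D i (D i (G s)) 0| else 0)) ∂P)
          = (∫⁻ s, (∑ i : Fin d, ENNReal.ofReal
              (if |D i (G s) 0| ≤ η then |D i (D i (G s)) 0| else 0)) ∂P) := by
            congr 1
            funext s
            rw [ENNReal.ofReal_sum_of_nonneg]
            intro i _
            split_ifs
            · exact abs_nonneg _
            · exact le_rfl
        _ = ∑ i : Fin d, (∫⁻ s, ENNReal.ofReal
              (if |D i (G s) 0| ≤ η then |D i (D i (G s)) 0| else 0) ∂P) :=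
            lintegral_finsetSum _ fun i _ => (mi i).ennreal_ofReal
        _ ≤ ∑ _i : Fin d, ENNReal.ofReal (2 * η / Real.pi) := Finset.sum_le_sum fun i _ => h1 i
        _ = _ := by
            rw [Finset.sum_const, Finset.card_univ, Fintype.card_fin, nsmul_eq_mul,
              ← ENNReal.ofReal_natCast, ← ENNReal.ofReal_mul (Nat.cast_nonneg d)]
    have c4 : ENNReal.ofReal δ * P {s | δ ≤ ∑ i : Fin d,
        (if |D i (G s) 0| ≤ η then |D i (D i (G s)) 0| else 0)} ≤
        ENNReal.ofReal (d * (2 * η / Real.pi)) :=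
      (mul_le_mul' le_rfl (measure_mono c2)).trans (c1.trans c3)
    calc P {s | δ ≤ ∑ i : Fin d, (if |D i (G s) 0| ≤ η then |D i (D i (G s)) 0| else 0)}
        = ENNReal.ofReal (1 / δ) * (ENNReal.ofReal δ * P {s | δ ≤ ∑ i : Fin d,
            (if |D i (G s) 0| ≤ η then |D i (D i (G s)) 0| else 0)}) := by
          rw [← mul_assoc, ← ENNReal.ofReal_mul (by positivity), one_div, inv_mul_cancel₀ δ0.ne',
            ENNReal.ofReal_one, one_mul]
      _ ≤ ENNReal.ofReal (1 / δ) * ENNReal.ofReal (d * (2 * η / Real.pi)) := mul_le_mul' le_rfl c4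
      _ = _ := by
          rw [← ENNReal.ofReal_mul (by positivity)]
          congr 1
          field_simp

/-- the bound -/
theorem bound [IsProbabilityMeasure P] (hτ : ∀ x, MeasurePreserving (τ x) P P)
    {G : S → E d → ℝ} (W : Wave P τ G) {δ : ℝ} (δ0 : 0 < δ) {A : Set ℝ}
    (hA : ∀ t ∈ A, δ ≤ |t|) (fA : volume A ≠ ⊤) :
    (P {s | G s 0 ∈ A}).toReal ≤ 2 * d / Real.pi * √(2 * (volume A).toReal / δ) := by
  obtain ⟨a, ha⟩ : ∃ a, a = (volume A).toReal := ⟨_, rfl⟩
  have a0 : 0 ≤ a := by rw [ha]; exact ENNReal.toReal_nonneg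
  have va : volume A = ENNReal.ofReal a := by rw [ha, ENNReal.ofReal_toReal fA]
  have pp := Real.pi_pos
  have key : ∀ η : ℝ, 0 < η → (P {s | G s 0 ∈ A}).toReal ≤
      d / (Real.pi * η) * a + d * (2 * η) / (Real.pi * δ) := by
    intro η η0
    have := param hτ W δ0 η0 hA
    rw [va, ← ENNReal.ofReal_mul (by positivity), ← ENNReal.ofReal_add (by positivity)
      (by positivity)] at this
    exact ENNReal.toReal_le_of_le_ofReal (by positivity) this
  rw [← ha]
  rcases eq_or_lt_of_le a0 with h | h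
  · rw [← h]
    simp only [mul_zero, zero_div, Real.sqrt_zero]
    refine le_of_forall_pos_le_add fun ε ε0 => ?_
    rcases Nat.eq_zero_or_pos d with hd | hd
    · have := key 1 one_pos
      have hd' : (d : ℝ) = 0 := by exact_mod_cast hd
      rw [← h, hd'] at this
      simp only [zero_div, zero_mul, add_zero] at this
      linarith
    have d0 : (0 : ℝ) < d := by exact_mod_cast hd
    have := key (ε * Real.pi * δ / (2 * d)) (by positivity)
    rw [← h, mul_zero, zero_add] at this
    have e : (d : ℝ) * (2 * (ε * Real.pi * δ / (2 * d))) / (Real.pi * δ) = ε := by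
      field_simp
    rw [e] at this
    linarith
  · have := key (√(a * δ / 2)) (Real.sqrt_pos.2 (by positivity))
    refine this.trans (le_of_eq ?_)
    have q0 : 0 < √(a * δ / 2) := Real.sqrt_pos.2 (by positivity)
    have q1 : √(a * δ / 2) ^ 2 = a * δ / 2 := Real.sq_sqrt (by positivity)
    have e : √(2 * a / δ) = 2 * √(a * δ / 2) / δ := by
      rw [Real.sqrt_eq_iff_mul_self_eq (by positivity) (by positivity)]
      field_simp
      nlinarith [q1]
    rw [e]
    field_simp
    nlinarith [q1]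

end Pool.Agent.K6.H29.OP
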